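import Pool.Agent.H86.IR.Targets1

/-!
# Module IP: Green's formula in the plane
-/

set_option autoImplicit false

open Complex Topology Filter InnerProductSpace MeasureTheory Laplacian

namespace Pool.Agent.H42.IR

theorem laplacian_eq (φ : ℂ → ℝ) (z : ℂ) : (Δ φ) z =
    fderiv ℝ (fderiv ℝ φ) z 1 1 + fderiv ℝ (fderiv ℝ φ) z I I := by
  rw [InnerProductSpace.laplacian_eq_iteratedFDeriv_complexPlane]
  simp [iteratedFDeriv_two_apply]

theorem fderiv_fderiv_apply {g : ℂ → ℝ} (hg : ContDiff ℝ 2 g) (v z : ℂ) :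
    fderiv ℝ (fun w => fderiv ℝ g w v) z v = fderiv ℝ (fderiv ℝ g) z v v := by
  have h1 : DifferentiableAt ℝ (fderiv ℝ g) z :=
    ((hg.fderiv_right (m := 1) (by norm_num)).differentiable (by norm_num)).differentiableAt
  have h2 := (h1.hasFDerivAt.clm_apply (hasFDerivAt_const v z)).fderiv
  have h3 : (fun w => fderiv ℝ g w v) = fun w => (fderiv ℝ g w) ((fun _ => v) w) := rfl
  rw [h3, h2]
  simp

theorem one_dir {f g : ℂ → ℝ} (hf : ContDiff ℝ 2 f) (hc : HasCompactSupport f)
    (hg : ContDiff ℝ 2 g) (v : ℂ) :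
    Integrable (fun z => f z * fderiv ℝ (fderiv ℝ g) z v v) ∧
    Integrable (fun z => g z * fderiv ℝ (fderiv ℝ f) z v v) ∧
    ∫ z, f z * fderiv ℝ (fderiv ℝ g) z v v = ∫ z, g z * fderiv ℝ (fderiv ℝ f) z v v := by
  have hf1 : ContDiff ℝ 1 (fderiv ℝ f) := hf.fderiv_right (by norm_num)
  have hg1 : ContDiff ℝ 1 (fderiv ℝ g) := hg.fderiv_right (by norm_num)
  have hfd : Differentiable ℝ f := hf.differentiable (by norm_num)
  have hgd : Differentiable ℝ g := hg.differentiable (by norm_num)
  have hfv : Differentiable ℝ (fun z => fderiv ℝ f z v) :=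
    (hf1.differentiable (by norm_num)).clm_apply (differentiable_const v)
  have hgv : Differentiable ℝ (fun z => fderiv ℝ g z v) :=
    (hg1.differentiable (by norm_num)).clm_apply (differentiable_const v)
  have hff : Continuous (fderiv ℝ (fderiv ℝ f)) := hf1.continuous_fderiv (by norm_num)
  have hgg : Continuous (fderiv ℝ (fderiv ℝ g)) := hg1.continuous_fderiv (by norm_num)
  have cfvv : Continuous (fun z => fderiv ℝ (fderiv ℝ f) z v v) :=
    (hff.clm_apply continuous_const).clm_apply continuous_const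
  have cgvv : Continuous (fun z => fderiv ℝ (fderiv ℝ g) z v v) :=
    (hgg.clm_apply continuous_const).clm_apply continuous_const
  have hcf : HasCompactSupport (fderiv ℝ f) := hc.fderiv ℝ
  have hcfv : HasCompactSupport (fun z => fderiv ℝ f z v) :=
    hcf.comp_left (g := fun L : ℂ →L[ℝ] ℝ => L v) (by simp)
  have hcff : HasCompactSupport (fun z => fderiv ℝ (fderiv ℝ f) z v v) :=
    (hcf.fderiv ℝ).comp_left (g := fun L : ℂ →L[ℝ] ℂ →L[ℝ] ℝ => L v v) (by simp)
  have i1 : Integrable (fun z => f z * fderiv ℝ (fderiv ℝ g) z v v) :=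
    (hf.continuous.mul cgvv).integrable_of_hasCompactSupport hc.mul_right
  have i2 : Integrable (fun z => g z * fderiv ℝ (fderiv ℝ f) z v v) :=
    (hg.continuous.mul cfvv).integrable_of_hasCompactSupport hcff.mul_left
  have i3 : Integrable (fun z => fderiv ℝ f z v * fderiv ℝ g z v) :=
    (hfv.continuous.mul hgv.continuous).integrable_of_hasCompactSupport hcfv.mul_right
  have i3' : Integrable (fun z => fderiv ℝ g z v * fderiv ℝ f z v) := by
    simpa only [mul_comm] using i3
  have i4 : Integrable (fun z => f z * fderiv ℝ g z v) :=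
    (hf.continuous.mul hgv.continuous).integrable_of_hasCompactSupport hc.mul_right
  have i5 : Integrable (fun z => g z * fderiv ℝ f z v) :=
    (hg.continuous.mul hfv.continuous).integrable_of_hasCompactSupport hcfv.mul_left
  refine ⟨i1, i2, ?_⟩
  have e1 := integral_mul_fderiv_eq_neg_fderiv_mul_of_integrable (μ := volume) (f := f)
    (g := fun z => fderiv ℝ g z v) (v := v) i3
    (by simpa only [fderiv_fderiv_apply hg] using i1) i4
    (fun x _ => hfd.differentiableAt) (fun x _ => hgv.differentiableAt)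
  have e2 := integral_mul_fderiv_eq_neg_fderiv_mul_of_integrable (μ := volume) (f := g)
    (g := fun z => fderiv ℝ f z v) (v := v) i3'
    (by simpa only [fderiv_fderiv_apply hf] using i2) i5
    (fun x _ => hgd.differentiableAt) (fun x _ => hfv.differentiableAt)
  simp only [fderiv_fderiv_apply hg, fderiv_fderiv_apply hf] at e1 e2
  rw [e1, e2]
  simp only [mul_comm]

theorem ip : Pool.Agent.H86.IR.T_IP := by
  intro f g hf hc hg
  obtain ⟨a1, a2, a3⟩ := one_dir hf hc hg 1
  obtain ⟨b1, b2, b3⟩ := one_dir hf hc hg I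
  simp only [laplacian_eq, mul_add]
  rw [integral_add a1 b1, integral_add a2 b2, a3, b3]

end Pool.Agent.H42.IR
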